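import Mathlib

set_option autoImplicit false

open NumberField

namespace Pool.Agent.Helper7.EquivPair

/-- An element of the ring of integers of `K` is totally positive if its image under every
real embedding of `K` is positive. -/
def TotPos {K : Type} [Field K] (x : 𝓞 K) : Prop :=
  ∀ φ : K →+* ℝ, 0 < φ (x : K)

/-- A totally positive integer is indecomposable if it is not the sum of two totally positive
integers. -/
def Indecomposable {K : Type} [Field K] (x : 𝓞 K) : Prop :=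
  TotPos x ∧ ¬ ∃ y z : 𝓞 K, TotPos y ∧ TotPos z ∧ x = y + z

/-- The value at `(x, y)` of the binary form `α x² + 2 m x y + α' y²`, where `α' = σ α`. -/
def form {K : Type} [Field K] (σ : 𝓞 K ≃+* 𝓞 K) (α : 𝓞 K) (m : ℤ) (x y : 𝓞 K) : 𝓞 K :=
  α * x ^ 2 + 2 * (m : 𝓞 K) * x * y + σ α * y ^ 2

/-- Equivalence of two binary forms over the ring of integers, by a matrix in `GL₂`. -/
def FormEquiv {K : Type} [Field K] (Q Q' : 𝓞 K → 𝓞 K → 𝓞 K) : Prop :=
  ∃ P : GL (Fin 2) (𝓞 K), ∀ x y : 𝓞 K,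
    Q' x y = Q (P 0 0 * x + P 0 1 * y) (P 1 0 * x + P 1 1 * y)

/-- The pair `(α, β)` is admissible: `β` is associated with neither `α` nor `α' = σ α`, and for
every integer `η` of the field `β ≠ α η²`, `β ≠ α' η²`, `α ≠ β η²` and `α ≠ β' η²`. -/
def Admissible {K : Type} [Field K] (σ : 𝓞 K ≃+* 𝓞 K) (α β : 𝓞 K) : Prop :=
  ¬ Associated β α ∧ ¬ Associated β (σ α) ∧
    ∀ η : 𝓞 K, β ≠ α * η ^ 2 ∧ β ≠ σ α * η ^ 2 ∧ α ≠ β * η ^ 2 ∧ α ≠ σ β * η ^ 2

end Pool.Agent.Helper7.EquivPair
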