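import Pool.Agent.Helper7.EquivPair.Defs

set_option autoImplicit false

open NumberField

namespace Pool.Agent.Helper7.EquivPair

instance fact41 : Fact (∀ r : ℚ, r ^ 2 ≠ 10 + 1 * r) := ⟨by
  intro r hr
  have h : IsSquare (41 : ℚ) := ⟨2 * r - 1, by linear_combination (-4) * hr⟩
  have h2 : ¬ IsSquare (41 : ℚ) := by norm_num
  exact h2 h⟩

/-- The field `ℚ(√41)`, with `w = (1 + √41) / 2`, so that `w ^ 2 = 10 + w`. -/
abbrev F : Type := QuadraticAlgebra ℚ 10 1

instance nf : NumberField F where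
  to_charZero := inferInstance
  to_finiteDimensional := inferInstance

/-- the generator as an element of the field -/
def w0 : F := ⟨0, 1⟩

lemma w0_sq : w0 ^ 2 = w0 + 10 := by
  rw [pow_two]
  ext <;> simp [w0, QuadraticAlgebra.re_ofNat, QuadraticAlgebra.im_ofNat]

lemma w0_int : IsIntegral ℤ w0 := by
  refine ⟨Polynomial.X ^ 2 - Polynomial.X - 10, ?_, ?_⟩
  · monicity!
  · simp [w0_sq]

/-- the generator as an algebraic integer -/
noncomputable def w : 𝓞 F := ⟨w0, w0_int⟩

lemma w_sq : w ^ 2 = w + 10 := by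
  apply RingOfIntegers.ext
  push_cast
  exact w0_sq

/-- the conjugation on the field -/
noncomputable def conjF : F ≃+* F := starRingAut

/-- the conjugation on the ring of integers -/
noncomputable def conj : 𝓞 F ≃+* 𝓞 F := RingOfIntegers.mapRingEquiv conjF

lemma conj_w : conj w = 1 - w := by
  apply RingOfIntegers.ext
  show conjF w0 = _
  push_cast
  show star w0 = 1 - w0
  ext <;> simp [w0, QuadraticAlgebra.re_one, QuadraticAlgebra.im_one]

lemma fin2 : Module.finrank ℚ F = 2 := QuadraticAlgebra.finrank_eq_two _ _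

lemma conj_ne : conj ≠ RingEquiv.refl (𝓞 F) := by
  intro h
  have h1 : conj w = w := by rw [h]; rfl
  rw [conj_w] at h1
  have h2 : ((1 - w : 𝓞 F) : F) = (w : F) := by rw [h1]
  push_cast at h2
  have h3 : (1 - w0 : F) = w0 := h2
  have h4 := congrArg QuadraticAlgebra.im h3
  simp [w0, QuadraticAlgebra.im_one] at h4
  norm_num at h4

/-- conjugate of the coercion -/
lemma conj_coe (z : 𝓞 F) : ((conj z : 𝓞 F) : F) = star (z : F) := rfl

lemma rat_int_of_isIntegral (q : ℚ) (h : IsIntegral ℤ (algebraMap ℚ F q)) : ∃ k : ℤ, q = k := by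
  have h1 : IsIntegral ℤ q := (isIntegral_algebraMap_iff (algebraMap ℚ F).injective).1 h
  obtain ⟨k, hk⟩ := (IsIntegrallyClosed.isIntegral_iff (R := ℤ) (K := ℚ)).1 h1
  exact ⟨k, by rw [← hk]; rfl⟩

lemma im_int (z : 𝓞 F) : ∃ k : ℤ, (z : F).im = k := by
  set a : ℚ := (z : F).re with ha
  set b : ℚ := (z : F).im with hb
  have hz : IsIntegral ℤ (z : F) := z.isIntegral_coe
  have hcz : IsIntegral ℤ (star (z : F)) := (conj z).isIntegral_coe
  obtain ⟨t, ht⟩ : ∃ k : ℤ, 2 * a + b = k := by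
    apply rat_int_of_isIntegral
    have : algebraMap ℚ F (2 * a + b) = (z : F) + star (z : F) := by
      have := QuadraticAlgebra.algebraMap_trace_eq_add_star (z : F)
      rw [← this, QuadraticAlgebra.trace_def]
      rw [one_mul]
      rfl
    rw [this]
    exact hz.add hcz
  obtain ⟨n, hn⟩ : ∃ k : ℤ, a * a + 1 * a * b - 10 * b * b = k := by
    apply rat_int_of_isIntegral
    have : algebraMap ℚ F (a * a + 1 * a * b - 10 * b * b) = (z : F) * star (z : F) := by
      have := QuadraticAlgebra.algebraMap_norm_eq_mul_star (z : F)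
      rw [← this, QuadraticAlgebra.norm_def]
      rfl
    rw [this]
    exact hz.mul hcz
  have h1 : (41 * b) * (41 * b) = ((41 * (t ^ 2 - 4 * n) : ℤ) : ℚ) := by
    push_cast
    rw [← ht, ← hn]; ring
  have h2 : IsIntegral ℤ (41 * b) := by
    refine ⟨Polynomial.X ^ 2 - Polynomial.C (41 * (t ^ 2 - 4 * n)), ?_, ?_⟩
    · monicity!
    · simp only [Polynomial.eval₂_sub, Polynomial.eval₂_X_pow, Polynomial.eval₂_C]
      rw [pow_two, h1]
      simp
  obtain ⟨c, hc⟩ := (IsIntegrallyClosed.isIntegral_iff (R := ℤ) (K := ℚ)).1 h2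
  have hc' : (c : ℚ) = 41 * b := by rw [← hc]; rfl
  rw [← hc'] at h1
  have h3 : c * c = 41 * (t ^ 2 - 4 * n) := by exact_mod_cast h1
  have h4 : (41 : ℤ) ∣ c := by
    have hp : Prime (41 : ℤ) := by norm_num
    rcases hp.dvd_or_dvd (a := c) (b := c) ⟨_, h3⟩ with h | h <;> exact h
  obtain ⟨e, he⟩ := h4
  refine ⟨e, ?_⟩
  rw [he] at hc'
  push_cast at hc'
  linarith

/-- real embeddings -/
noncomputable def emb (s : ℝ) (hs : s ^ 2 = 41) : F →+* ℝ :=
  (QuadraticAlgebra.lift (R := ℚ) (a := 10) (b := 1) (A := ℝ)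
    ⟨(1 + s) / 2, by
      rw [Rat.smul_def, Rat.smul_def]
      push_cast
      linear_combination hs / 4⟩).toRingHom

lemma emb_apply (s : ℝ) (hs : s ^ 2 = 41) (z : F) :
    emb s hs z = (z.re : ℝ) + (z.im : ℝ) * ((1 + s) / 2) := by
  show (z.re • (1 : ℝ) + z.im • ((1 + s) / 2 : ℝ)) = _
  rw [Rat.smul_def, Rat.smul_def]
  ring


lemma im_mul_sqrt (z : F) (s : ℝ) (hs : s ^ 2 = 41) (hs' : (-s) ^ 2 = 41) :
    emb s hs z - emb (-s) hs' z = (z.im : ℝ) * s := by
  rw [emb_apply, emb_apply]; ring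

lemma sq41 : (√41 : ℝ) ^ 2 = 41 := Real.sq_sqrt (by norm_num)

lemma sq41' : (-√41 : ℝ) ^ 2 = 41 := by rw [neg_sq]; exact sq41

lemma indec (α γ : 𝓞 F) (hα : TotPos α) (h1 : 0 < emb (√41) sq41 (γ : F))
    (h2 : emb (-√41) sq41' (γ : F) < 0) (h : ((γ * α : 𝓞 F) : F).im = 1) :
    Indecomposable α := by
  have key : ∀ y : 𝓞 F, TotPos y → (1 : ℚ) ≤ ((γ * y : 𝓞 F) : F).im := by
    intro y hy
    obtain ⟨k, hk⟩ := im_int (γ * y)
    have h3 := im_mul_sqrt ((γ * y : 𝓞 F) : F) (√41) sq41 sq41'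
    have h4 : ((γ * y : 𝓞 F) : F) = (γ : F) * (y : F) := by push_cast; rfl
    have h5 : emb (√41) sq41 ((γ * y : 𝓞 F) : F) =
        emb (√41) sq41 (γ : F) * emb (√41) sq41 (y : F) := by rw [h4, map_mul]
    have h6 : emb (-√41) sq41' ((γ * y : 𝓞 F) : F) =
        emb (-√41) sq41' (γ : F) * emb (-√41) sq41' (y : F) := by rw [h4, map_mul]
    have h7 : 0 < emb (√41) sq41 (γ : F) * emb (√41) sq41 (y : F) :=
      mul_pos h1 (hy _)
    have h8 : emb (-√41) sq41' (γ : F) * emb (-√41) sq41' (y : F) < 0 :=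
      mul_neg_of_neg_of_pos h2 (hy _)
    rw [h5, h6, hk] at h3
    have h9 : (0 : ℝ) < (√41 : ℝ) := Real.sqrt_pos.2 (by norm_num)
    have h10 : 0 < (((k : ℤ) : ℚ) : ℝ) * √41 := by rw [← h3]; linarith
    have h11 : 0 < (((k : ℤ) : ℚ) : ℝ) := (mul_pos_iff_of_pos_right h9).1 h10
    rw [hk]
    have h12 : (0 : ℤ) < k := by exact_mod_cast h11
    exact_mod_cast h12
  refine ⟨hα, ?_⟩
  rintro ⟨y, z, hy, hz, hyz⟩
  have hy1 := key y hy
  have hz1 := key z hz
  have : ((γ * α : 𝓞 F) : F).im = ((γ * y : 𝓞 F) : F).im + ((γ * z : 𝓞 F) : F).im := by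
    rw [hyz, mul_add]; push_cast; rfl
  rw [h] at this
  linarith

lemma norm_formula (z : 𝓞 F) : (Algebra.norm ℤ z : ℚ) = QuadraticAlgebra.norm (z : F) := by
  rw [Algebra.coe_norm_int, Algebra.norm_eq_matrix_det (QuadraticAlgebra.basis (10 : ℚ) (1 : ℚ)),
    Matrix.det_fin_two, QuadraticAlgebra.norm_def]
  simp only [Algebra.leftMulMatrix_apply, LinearMap.toMatrix_apply]
  simp [QuadraticAlgebra.basis]
  ring

/-- the element `α` -/
noncomputable def al : 𝓞 F := 11 + 4 * w
/-- the element `β` -/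
noncomputable def be : 𝓞 F := 73 + 27 * w

lemma coe_lin (a b : ℤ) : (((a : 𝓞 F) + (b : 𝓞 F) * w : 𝓞 F) : F) = ⟨(a : ℚ), (b : ℚ)⟩ := by
  push_cast
  show (a : F) + (b : F) * w0 = _
  ext <;> simp [w0]

lemma norm_lin (a b : ℤ) : Algebra.norm ℤ ((a : 𝓞 F) + (b : 𝓞 F) * w) = a * a + a * b - 10 * b * b := by
  have h := norm_formula ((a : 𝓞 F) + (b : 𝓞 F) * w)
  rw [coe_lin, QuadraticAlgebra.norm_def] at h
  simp only [one_mul] at h
  exact_mod_cast h

lemma norm_al : Algebra.norm ℤ al = 5 := by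
  have := norm_lin 11 4
  push_cast at this
  rw [al, this]

lemma norm_be : Algebra.norm ℤ be = 10 := by
  have := norm_lin 73 27
  push_cast at this
  rw [be, this]

lemma norm_conj (z : 𝓞 F) : Algebra.norm ℤ (conj z) = Algebra.norm ℤ z := by
  have h1 := norm_formula z
  have h2 := norm_formula (conj z)
  rw [conj_coe, QuadraticAlgebra.norm_star, ← h1] at h2
  exact_mod_cast h2

lemma totPos_of (a b : ℤ) (h1 : 0 < 2 * a + b) (h2 : 0 < a * a + a * b - 10 * b * b) :
    TotPos ((a : 𝓞 F) + (b : 𝓞 F) * w) := by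
  intro φ
  have hw : φ w0 ^ 2 = φ w0 + 10 := by
    rw [← map_pow, w0_sq, map_add, map_ofNat]
  have hcast : φ (((a : 𝓞 F) + (b : 𝓞 F) * w : 𝓞 F) : F) = (a : ℝ) + (b : ℝ) * φ w0 := by
    push_cast
    show φ ((a : F) + (b : F) * w0) = _
    simp
  rw [hcast]
  set r := φ w0
  have h3 : (0 : ℝ) < 2 * a + b := by exact_mod_cast h1
  have h4 : (0 : ℝ) < a * a + a * b - 10 * b * b := by exact_mod_cast h2
  have h5 : ((a : ℝ) + b * r) * (a + b * (1 - r)) = a * a + a * b - 10 * b * b := by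
    linear_combination (-(b : ℝ) ^ 2) * hw
  by_contra hneg
  push Not at hneg
  have h6 : (0 : ℝ) < a + b * (1 - r) := by linarith
  have h7 : ((a : ℝ) + b * r) * (a + b * (1 - r)) ≤ 0 := mul_nonpos_of_nonpos_of_nonneg hneg h6.le
  linarith

lemma totPos_al : TotPos al := by
  have := totPos_of 11 4 (by norm_num) (by norm_num)
  push_cast at this
  exact this

lemma totPos_be : TotPos be := by
  have := totPos_of 73 27 (by norm_num) (by norm_num)
  push_cast at this
  exact this

lemma sqrt41_lt : (√41 : ℝ) < 6.4032 := by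
  rw [Real.sqrt_lt' (by norm_num)]; norm_num

lemma lt_sqrt41 : (6.403 : ℝ) < √41 := by
  rw [Real.lt_sqrt (by norm_num)]; norm_num

lemma coe_mul' (x y : 𝓞 F) : ((x * y : 𝓞 F) : F) = (x : F) * (y : F) := rfl

lemma indec_al : Indecomposable al := by
  apply indec al (((-11 : ℤ) : 𝓞 F) + ((3 : ℤ) : 𝓞 F) * w) totPos_al
  · rw [coe_lin, emb_apply]
    have := lt_sqrt41
    push_cast
    nlinarith
  · rw [coe_lin, emb_apply]
    have := lt_sqrt41
    push_cast
    nlinarith
  · have h := coe_lin 11 4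
    push_cast at h
    rw [coe_mul', coe_lin, al]
    push_cast
    rw [h]
    norm_num [QuadraticAlgebra.im_mul]

lemma indec_be : Indecomposable be := by
  apply indec be (((-37 : ℤ) : 𝓞 F) + ((10 : ℤ) : 𝓞 F) * w) totPos_be
  · rw [coe_lin, emb_apply]
    have := lt_sqrt41
    push_cast
    nlinarith
  · rw [coe_lin, emb_apply]
    have := lt_sqrt41
    push_cast
    nlinarith
  · have h := coe_lin 73 27
    push_cast at h
    rw [coe_mul', coe_lin, be]
    push_cast
    rw [h]
    norm_num [QuadraticAlgebra.im_mul]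

/-- the base change matrix -/
noncomputable def Pm : Matrix (Fin 2) (Fin 2) (𝓞 F) :=
  !![-2 - w, 11 - 3 * w; 27 + 10 * w, 1]

lemma det_Pm : Pm.det = 1 := by
  rw [Pm, Matrix.det_fin_two_of]
  linear_combination 30 * w_sq

/-- the base change matrix as an element of `GL₂` -/
noncomputable def PG : GL (Fin 2) (𝓞 F) :=
  Matrix.GeneralLinearGroup.mk'' Pm (by rw [det_Pm]; exact isUnit_one)

lemma conj_al : conj al = 15 - 4 * w := by
  rw [al, map_add, map_mul, conj_w, map_ofNat, map_ofNat]; ring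

lemma conj_be : conj be = 100 - 27 * w := by
  rw [be, map_add, map_mul, conj_w, map_ofNat, map_ofNat]; ring

lemma equiv : FormEquiv (form conj al 2) (form conj be 3) := by
  refine ⟨PG, fun x y => ?_⟩
  have h00 : PG 0 0 = -2 - w := rfl
  have h01 : PG 0 1 = 11 - 3 * w := rfl
  have h10 : PG 1 0 = 27 + 10 * w := rfl
  have h11 : PG 1 1 = 1 := rfl
  rw [h00, h01, h10, h11]
  unfold form
  rw [conj_al, conj_be, al, be]
  push_cast
  linear_combination ((1069 + 396 * w) * x ^ 2 + (150 - 24 * w) * x * y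
    + (129 - 36 * w) * y ^ 2) * w_sq

lemma adm : Admissible conj al be := by
  refine ⟨?_, ?_, ?_⟩
  · rintro ⟨u, hu⟩
    have h := congrArg (Algebra.norm ℤ) hu
    rw [map_mul, norm_al, norm_be] at h
    omega
  · rintro ⟨u, hu⟩
    have h := congrArg (Algebra.norm ℤ) hu
    rw [map_mul, norm_conj, norm_al, norm_be] at h
    omega
  · intro η
    have hsq : ∀ k : ℤ, k ^ 2 ≠ 2 := by
      intro k hk
      have h2 : ¬ IsSquare (2 : ℤ) := by norm_num
      exact h2 ⟨k, by rw [← hk, pow_two]⟩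
    refine ⟨?_, ?_, ?_, ?_⟩
    · intro h
      have h := congrArg (Algebra.norm ℤ) h
      rw [map_mul, map_pow, norm_al, norm_be] at h
      exact hsq _ (by linarith)
    · intro h
      have h := congrArg (Algebra.norm ℤ) h
      rw [map_mul, map_pow, norm_conj, norm_al, norm_be] at h
      exact hsq _ (by linarith)
    · intro h
      have h := congrArg (Algebra.norm ℤ) h
      rw [map_mul, map_pow, norm_al, norm_be] at h
      omega
    · intro h
      have h := congrArg (Algebra.norm ℤ) h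
      rw [map_mul, map_pow, norm_conj, norm_al, norm_be] at h
      omega

lemma tot_real : IsTotallyReal F := by
  refine ⟨fun v => ?_⟩
  rw [← InfinitePlace.mk_embedding v, InfinitePlace.isReal_mk_iff]
  set φ := v.embedding
  have hw : φ w0 ^ 2 = φ w0 + 10 := by
    rw [← map_pow, w0_sq, map_add, map_ofNat]
  have him : (φ w0).im = 0 := by
    have h1 := congrArg Complex.im hw
    have h2 := congrArg Complex.re hw
    simp [pow_two] at h1 h2
    by_contra hne
    have h3 : (φ w0).re = 1 / 2 := by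
      have : (φ w0).im * (2 * (φ w0).re - 1) = 0 := by linarith
      rcases mul_eq_zero.1 this with h | h
      · exact absurd h hne
      · linarith
    rw [h3] at h2
    nlinarith [mul_self_nonneg (φ w0).im]
  rw [ComplexEmbedding.isReal_iff]
  ext z
  have hz : z = algebraMap ℚ F z.re + algebraMap ℚ F z.im * w0 := by
    ext <;> simp [w0]
  rw [ComplexEmbedding.conjugate_coe_eq, hz]
  simp only [map_add, map_mul, eq_ratCast, map_ratCast]
  congr 2
  exact Complex.conj_eq_iff_im.2 him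

/-- There are a real quadratic field `K`, an admissible pair `(α, β)` of indecomposable integers
of `K` and nonzero integers `m`, `n` with `m² < N(α)` and `n² < N(β)` such that the forms
`Q_{α,m}` and `Q_{β,n}` are equivalent over the ring of integers. In the proof `K = ℚ(√41)`,
`α = 13 + 2√41`, `β = (173 + 27√41) / 2`, `m = 2` and `n = 3`. -/
theorem main : ∃ (K : Type) (_ : Field K) (_ : NumberField K) (σ : 𝓞 K ≃+* 𝓞 K)
    (α β : 𝓞 K) (m n : ℤ),
    Module.finrank ℚ K = 2 ∧ IsTotallyReal K ∧ σ ≠ RingEquiv.refl (𝓞 K) ∧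
    Indecomposable α ∧ Indecomposable β ∧ Admissible σ α β ∧
    0 < m ^ 2 ∧ m ^ 2 < Algebra.norm ℤ α ∧ 0 < n ^ 2 ∧ n ^ 2 < Algebra.norm ℤ β ∧
    FormEquiv (form σ α m) (form σ β n) := by
  refine ⟨F, inferInstance, nf, conj, al, be, 2, 3, fin2, tot_real, conj_ne, indec_al, indec_be,
    adm, by norm_num, ?_, by norm_num, ?_, equiv⟩
  · rw [norm_al]; norm_num
  · rw [norm_be]; norm_num

end Pool.Agent.Helper7.EquivPair
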